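import Pool.Agent.Lib.MP_688fd0_co.TF.H12.Resmf

/-!
# Theorem F, module LEVMF: the models LEV
-/

namespace Pool.Agent.Lib.MP_688fd0_co.TF.H12

open Pool.Agent.Lib.MP_688fd0_co.TE
open Pool.Agent.Lib.MP_688fd0_co.TE.H94 (um_nonneg um_le um_le_wm wm_nonneg sum_shift fk_succ
  sum_ind_eq)

universe u v

open Matrix

/-- LEVMF: existence and properties of the models LEV. -/
theorem levmf (h1 : KERF_S.{u}) (h2 : NUMF_S.{u}) (h3 : TRF_S.{u, 0}) : LEVMF_S.{u} := by
  intro G _ _ _ c τ m _ i0 hm1 hm2
  obtain ⟨hX, -, -, -⟩ := numXF h2 c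
  obtain ⟨-, -, -, hk100, hlog, hq0, hb0, hbX, hbn, -⟩ := h2 G c
  have hX0 : (0 : ℝ) < c.X := by linarith
  have hX1 : (1 : ℝ) ≤ c.X := by linarith
  have hb1 : (1 : ℝ) ≤ c.b := (one_le_pow₀ hX1).trans hbX
  have hX5 : (1 : ℝ) ≤ c.X ^ 5 := one_le_pow₀ hX1
  have hm0 : (1 : ℝ) ≤ m := (one_le_pow₀ hX1).trans hm1
  have hm00 : (0 : ℝ) < m := by linarith
  have hcard : (Fintype.card (ZMod m) : ℝ) = m := by rw [ZMod.card]
  have hsum : ∑ _e : ZMod m, 1 / c.X ^ 5 / (m : ℝ) = 1 / c.X ^ 5 := by
    rw [Finset.sum_const, Finset.card_univ, nsmul_eq_mul, hcard]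
    field_simp
  have hr5 : 1 / c.X ^ 5 ≤ 1 := by
    rw [div_le_one (by positivity)]; exact hX5
  have hHX : (m : ℝ) / (1 / c.X ^ 5) ≤ 2 * c.X ^ 3000 := by
    rw [div_div_eq_mul_div, div_one]
    calc (m : ℝ) * c.X ^ 5 ≤ (2 * c.X ^ 1000) * c.X ^ 5 := by gcongr
      _ = 2 * c.X ^ 1005 := by rw [mul_assoc, ← pow_add]
      _ ≤ 2 * c.X ^ 3000 := by
          have := pow_le_pow_right₀ hX1 (show 1005 ≤ 3000 by norm_num)
          linarith
  let M : LM G (ZMod m) (6 * c.k + 2) :=
    { jc := 2
      P := fun _ _ => 1 / c.X ^ 5 / m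
      ex := fun u _ => u
      C := fun j => c.cc τ (1 * j + 1)
      kap := fun j _ l => ind (l = if Even j then i0 + 1 else i0)
      sp := fun j => (τ = true → (1 * j + 1) % 3 ≠ 2)
      H0 := m / (1 / c.X ^ 5)
      b := c.b
      pt := 1 / c.X ^ 5
      hjc := by omega
      hb := hb1
      hH0 := by
        rw [le_div_iff₀ (by positivity)]
        linarith
      hP0 := fun u e => by positivity
      hP1 := fun u => by rw [hsum]; exact hr5
      hk0 := fun j u e => ind_nonneg _
      hkH := fun j u e => by
        have : (m : ℝ) / (1 / c.X ^ 5) * (1 / c.X ^ 5 / m) = 1 := by field_simp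
        rw [this]
        exact ind_le_one _
      hk1 := fun j u => by rw [sum_ind_eq]
      hC0 := fun j u v => (cc_ds h1 c τ _).nn _ _
      hCr := fun j u => ((cc_ds h1 c τ _).row u).le
      hCc := fun j v => ((cc_ds h1 c τ _).col v).le
      hM := fun j v => by
        simp only [← Finset.sum_mul, sum_ind_eq, one_mul]
        have h5 := ((cc_ds h1 c τ (j + 1 + 1)).col v).le
        simpa using h5
      hpt := fun w => by
        simp only [or_self, ← Finset.sum_mul, hsum]
        rw [← Finset.mul_sum, sum_ind_eq, mul_one]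
      hpt1 := hr5
      hsp := fun j u v hj => cc_le_b c τ _ hj u v
      hsp0 := by intro _; norm_num
      hspa := by intro _; omega
      hspc := by intro _; norm_num
      hspc' := by intro _; norm_num
      hsp2 := fun j _ => by
        by_cases h : (1 * j + 1) % 3 = 2
        · right; intro _; omega
        · left; intro _; exact h }
  have hfk : ∀ r i x y, M.fk i r x y = c.K τ i (r + 1) x y := by
    intro r
    induction r with
    | zero =>
      intro i x y
      show c.cc τ (1 * i + 1) x y = _
      rw [one_mul, k_one h1]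
    | succ r ih =>
      intro i x y
      rw [fk_succ]
      have h3 : c.K τ i (r + 1 + 1) = c.K τ i 1 * c.K τ (i + 1) (r + 1) := by
        have h4 := k_add h1 c τ i 1 (r + 1)
        rw [← h4]
        congr 1
        ring
      rw [h3, k_one h1, Matrix.mul_apply]
      refine Finset.sum_congr rfl fun u _ => ?_
      have h5 : ∀ e : ZMod m, M.C i x u * M.kap i u e * M.fk (i + 1) r (M.ex u e) y =
          c.cc τ (i + 1) x u * ind (e = if Even i then i0 + 1 else i0) *
            c.K τ (i + 1) (r + 1) u y := by
        intro e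
        rw [ih]
        show c.cc τ (1 * i + 1) x u * ind (e = if Even i then i0 + 1 else i0) * _ = _
        rw [one_mul]
      simp only [h5]
      rw [← Finset.sum_mul, ← Finset.mul_sum, sum_ind_eq, mul_one]
  have hI : c.Inst τ 1 M c.jl := by
    exact
      { d1 := Or.inl rfl
        len := by ring
        mid := by unfold Ctx.jl; ring
        C := fun j u v => rfl
        kap := fun j u v => by
          show ∑ e : ZMod m, ind (e = if Even j then i0 + 1 else i0) * ind (u = v) =
            (1 : Matrix G G ℝ) u v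
          rw [← Finset.sum_mul, sum_ind_eq, one_mul, Matrix.one_apply]
          unfold ind
          split_ifs <;> rfl
        fk := fun i r x y _ => by
          rw [hfk, one_mul, one_mul]
        sp := fun j => Iff.rfl
        b := rfl
        H0 := hHX
        pos := fun j u e hP => by
          have h4 := M.hkH j u e
          have h5 := M.hk0 j u e
          rw [hP, mul_zero] at h4
          exact le_antisymm h4 h5
        lev := fun _ u e => rfl
        res := fun h => absurd h (by norm_num) }
  refine ⟨M, ?_, ?_⟩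
  · exact
      { P := fun u t => rfl
        ex := fun u t => rfl
        kap := fun j u t => rfl
        H0 := rfl
        pt := rfl
        inst := hI }
  · refine nf_inst h1 h2 h3 c τ 1 M c.jl hI ?_ le_rfl le_rfl
    unfold Ctx.jl; omega

end Pool.Agent.Lib.MP_688fd0_co.TF.H12
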