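import Pool.Agent.Lib.MP_688fd0_co.TF.Iface4
import Pool.Agent.Lib.MP_688fd0_co.TE.H94.Levm

/-!
# Theorem F, modules RESMF and LEVMF: the models RES and LEV
-/

namespace Pool.Agent.Lib.MP_688fd0_co.TF.H12

open Pool.Agent.Lib.MP_688fd0_co.TE
open Pool.Agent.Lib.MP_688fd0_co.TE.H94 (um_nonneg um_le um_le_wm wm_nonneg sum_shift fk_succ
  sum_ind_eq)

universe u v

open Matrix

section

variable {G : Type u} [Group G] [Fintype G] [DecidableEq G]

theorem cf_le_wm (B C : Finset G) (τ : Bool) (p : ℕ) (x y : G) :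
    cF B C τ p x y ≤ 2 * WM B C τ x y := by
  unfold cF
  split
  · have := wm_nonneg B C τ x y
    linarith
  · exact um_le_wm B C τ x y

theorem cc_ds (h1 : KERF_S.{u}) (c : Ctx G) (τ : Bool) (p : ℕ) : DS (c.cc τ p) :=
  ((h1 G c τ).2.2.2.2.2.2.2.2.2.2.1 p).1

theorem cc_inv (h1 : KERF_S.{u}) (c : Ctx G) (τ : Bool) (p : ℕ) : Inv (c.cc τ p) :=
  ((h1 G c τ).2.2.2.2.2.2.2.2.2.2.1 p).2

theorem k_one (h1 : KERF_S.{u}) (c : Ctx G) (τ : Bool) (p : ℕ) : c.K τ p 1 = c.cc τ (p + 1) :=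
  (h1 G c τ).2.2.2.2.2.2.2.2.2.2.2 p

theorem k_add (h1 : KERF_S.{u}) (c : Ctx G) (τ : Bool) (i m n : ℕ) :
    c.K τ i (m + n) = c.K τ i m * c.K τ (i + m) n :=
  (h1 G c τ).2.1 i m n

theorem cc_two (c : Ctx G) (τ : Bool) : c.cc τ 2 = WM c.B c.C τ := by
  simp [Ctx.cc, cF]

theorem wm_ds (h1 : KERF_S.{u}) (c : Ctx G) (τ : Bool) : DS (WM c.B c.C τ) := by
  rw [← cc_two]; exact cc_ds h1 c τ 2

theorem wm_inv (h1 : KERF_S.{u}) (c : Ctx G) (τ : Bool) : Inv (WM c.B c.C τ) := by
  rw [← cc_two]; exact cc_inv h1 c τ 2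

theorem cc_le_b (c : Ctx G) (τ : Bool) (p : ℕ) (h : τ = true → p % 3 ≠ 2) (x y : G) :
    c.cc τ p x y ≤ 1 / c.b := by
  have h1 : c.cc τ p = UM c.B := by
    unfold Ctx.cc cF WM
    cases τ
    · simp
    · rw [if_neg (h rfl)]
  rw [h1]
  exact um_le _ _ _

omit [Fintype G] in
theorem um_lt {S : Finset G} {x y : G} (h : UM S x y ≠ 0) : x⁻¹ * y ∈ S := by
  by_contra h1
  apply h
  unfold UM
  rw [ind_not h1, zero_div]

theorem cc_lt (c : Ctx G) (τ : Bool) (p : ℕ) (t : G) (h : c.cc τ p 1 t ≠ 0) :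
    t ∈ Lt c.B c.C τ := by
  have hB : ∀ t : G, UM c.B 1 t ≠ 0 → t ∈ Lt c.B c.C τ := by
    intro t ht
    have h1 := um_lt ht
    rw [inv_one, one_mul] at h1
    unfold Lt
    split
    · exact Finset.mem_union_left _ h1
    · exact h1
  unfold Ctx.cc cF at h
  split at h
  · cases τ
    · simp only [WM, Bool.false_eq_true, if_false] at h
      exact hB t h
    · simp only [WM, if_true, Matrix.smul_apply, Matrix.add_apply, smul_eq_mul] at h
      by_cases h1 : UM c.B 1 t = 0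
      · have h2 : UM c.C 1 t ≠ 0 := by
          intro h2
          rw [h1, h2] at h
          simp at h
        have h3 := um_lt h2
        rw [inv_one, one_mul] at h3
        simp only [Lt, if_true]
        exact Finset.mem_union_right _ h3
      · exact hB t h1
  · exact hB t h

/-- numerics -/
theorem numXF (h2 : NUMF_S.{u}) (c : Ctx G) :
    (10 ^ 6 : ℝ) ≤ c.X ∧ 8 * (6 * (c.k : ℝ) + 2) ^ 2 * c.T ≤ c.X ∧
      (10 ^ 6 * (6 * (c.k : ℝ) + 3)) ^ 20 ≤ c.X ∧ (10 ^ 6 * (c.T : ℝ)) ^ 20 ≤ c.X := by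
  obtain ⟨hX, hk, hT, hk100, -⟩ := h2 G c
  have hk1 : (1 : ℝ) ≤ c.k := by exact_mod_cast (by omega : 1 ≤ c.k)
  have hT1 : (1 : ℝ) ≤ c.T := by exact_mod_cast c.hT1
  have h0 : 8 * (6 * (c.k : ℝ) + 2) ^ 2 ≤ 600 * (c.k : ℝ) ^ 2 := by nlinarith
  have h00 : 8 * (6 * (c.k : ℝ) + 2) ^ 2 * c.T ≤ 600 * (c.k : ℝ) ^ 2 * c.T :=
    mul_le_mul_of_nonneg_right h0 (by positivity)
  refine ⟨hX, h00.trans ?_, ?_, ?_⟩
  · have hA : (1 : ℝ) ≤ 10 ^ 6 * c.k := by nlinarith
    have hB : (1 : ℝ) ≤ 10 ^ 6 * c.T := by nlinarith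
    rcases le_total (c.k : ℝ) c.T with h | h
    · calc 600 * (c.k : ℝ) ^ 2 * c.T ≤ 600 * (c.T : ℝ) ^ 2 * c.T := by gcongr
        _ ≤ (10 ^ 6 * (c.T : ℝ)) ^ 3 := by
            have : 0 ≤ (c.T : ℝ) ^ 3 := by positivity
            nlinarith
        _ ≤ (10 ^ 6 * (c.T : ℝ)) ^ 200 := pow_le_pow_right₀ hB (by norm_num)
        _ ≤ c.X := hT
    · calc 600 * (c.k : ℝ) ^ 2 * c.T ≤ 600 * (c.k : ℝ) ^ 2 * c.k := by gcongr
        _ ≤ (10 ^ 6 * (c.k : ℝ)) ^ 3 := by
            have : 0 ≤ (c.k : ℝ) ^ 3 := by positivity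
            nlinarith
        _ ≤ (10 ^ 6 * (c.k : ℝ)) ^ 200 := pow_le_pow_right₀ hA (by norm_num)
        _ ≤ c.X := hk
  · have hA : (1 : ℝ) ≤ 10 ^ 6 * c.k := by nlinarith
    calc (10 ^ 6 * (6 * (c.k : ℝ) + 3)) ^ 20 ≤ ((10 ^ 6 * (c.k : ℝ)) ^ 2) ^ 20 := by
          have h3 : 10 ^ 6 * (6 * (c.k : ℝ) + 3) ≤ (10 ^ 6 * (c.k : ℝ)) ^ 2 := by nlinarith
          have h4 : 0 ≤ 10 ^ 6 * (6 * (c.k : ℝ) + 3) := by positivity
          exact pow_le_pow_left₀ h4 h3 20
      _ = (10 ^ 6 * (c.k : ℝ)) ^ 40 := by rw [← pow_mul]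
      _ ≤ (10 ^ 6 * (c.k : ℝ)) ^ 200 := pow_le_pow_right₀ hA (by norm_num)
      _ ≤ c.X := hk
  · have hB : (1 : ℝ) ≤ 10 ^ 6 * c.T := by nlinarith
    calc (10 ^ 6 * (c.T : ℝ)) ^ 20 ≤ (10 ^ 6 * (c.T : ℝ)) ^ 200 :=
          pow_le_pow_right₀ hB (by norm_num)
      _ ≤ c.X := hT

theorem zeta_le (c : Ctx G) (τ : Bool) (hX : (10 ^ 6 : ℝ) ≤ c.X) :
    0 < c.ζ τ ∧ c.ζ τ ≤ 1 / c.X ^ 400 ∧ 2 / c.ζ τ ≤ 2 * c.X ^ 3000 := by
  have h0 : (0 : ℝ) < c.X := by linarith
  have h1 : (1 : ℝ) ≤ c.X := by linarith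
  cases τ
  · simp only [Ctx.ζ, Bool.false_eq_true, if_false]
    refine ⟨by positivity, le_refl _, ?_⟩
    rw [div_div_eq_mul_div, div_one]
    have := pow_le_pow_right₀ h1 (show 400 ≤ 3000 by norm_num)
    linarith
  · simp only [Ctx.ζ, if_true]
    refine ⟨by positivity, ?_, ?_⟩
    · exact one_div_le_one_div_of_le (by positivity) (pow_le_pow_right₀ h1 (by norm_num))
    · rw [div_div_eq_mul_div, div_one]

/-- The numerical assumptions for an instance. -/
theorem nf_inst (h1 : KERF_S.{u}) (h2 : NUMF_S.{u}) (h3 : TRF_S.{u, v}) (c : Ctx G) (τ : Bool)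
    (d : ℕ) {Val : Type v} [Fintype Val] {a : ℕ} (M : LM G Val a) (jm : ℕ)
    (hI : c.Inst τ d M jm) (hjm : jm + 1 < a) (ha : a ≤ 6 * c.k + 2) (hpt : M.pt ≤ 1 / c.X ^ 5) :
    M.NF jm (Fintype.card G) c.X (c.q τ) c.b1 (lam0F τ d c.X M.H0) c.T := by
  obtain ⟨hX, hkT, hka, hTT⟩ := numXF h2 c
  obtain ⟨-, -, -, hk100, hlog, hq0, hb0, hbX, hbn, hb1, hb1X, hb14, hqb, hnT, hen, -⟩ := h2 G c
  have hX0 : (0 : ℝ) < c.X := by linarith
  have hX1 : (1 : ℝ) ≤ c.X := by linarith
  have hb11 : (1 : ℝ) ≤ c.b1 := (one_le_pow₀ hX1).trans hb1X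
  have hb1b : c.b1 ≤ c.b := by
    rw [← hb14]
    exact le_self_pow₀ hb11 (by norm_num)
  have haR : (a : ℝ) ≤ 6 * c.k + 2 := by exact_mod_cast ha
  exact
    { jma := hjm
      n1 := by
        have h4 : (2 : ℝ) ≤ c.X ^ 200000 := by
          calc (2 : ℝ) ≤ c.X := by linarith
            _ = c.X ^ 1 := (pow_one _).symm
            _ ≤ c.X ^ 200000 := pow_le_pow_right₀ hX1 (by norm_num)
        linarith
      X1 := hX
      aX := by
        refine le_trans ?_ hka
        have h4 : (10 ^ 6 * ((a : ℝ) + 1)) ≤ 10 ^ 6 * (6 * (c.k : ℝ) + 3) := by linarith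
        exact pow_le_pow_left₀ (by positivity) h4 20
      TX := hTT
      T1 := c.hT1
      q0 := c.hq τ
      q1 := (hqb τ).trans (one_div_le_one_div_of_le hb1 hb1b)
      bX := hb1X
      bn := hb1b.trans hbn
      HX := hI.H0
      nT := hnT
      en := hen
      ptX := by
        have hpt0 : 0 ≤ M.pt := by
          have h5 := M.hpt (1 : G)
          refine le_trans ?_ h5
          exact Finset.sum_nonneg fun u _ => Finset.sum_nonneg fun e _ =>
            mul_nonneg (M.hP0 u e) (ind_nonneg _)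
        calc 8 * (a : ℝ) ^ 2 * c.T * M.pt ≤ 8 * (6 * (c.k : ℝ) + 2) ^ 2 * c.T * (1 / c.X ^ 5) := by
              gcongr
          _ ≤ c.X * (1 / c.X ^ 5) := mul_le_mul_of_nonneg_right hkT (by positivity)
          _ = 1 / c.X ^ 4 := by field_simp
      l1 := by
        unfold lam0F
        split
        · have := M.hH0
          nlinarith
        · norm_num
      pos := hI.pos
      kx := fun v => by
        have h5 : ∀ u, ∑ e, M.kap jm u e * ind (M.ex u e = v) =
            c.K τ (d * jm + 1) (d - 1) u v := fun u => hI.kap jm u v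
        simp only [h5]
        exact (((h1 G c τ).1 (d * jm + 1) (d - 1)).1.col v).le
      tr := h3 G c τ d Val a M jm hI }

end

/-- RESMF: existence and properties of the model RES. -/
theorem resmf (h1 : KERF_S.{u}) (h2 : NUMF_S.{u}) (h3 : TRF_S.{u, u}) : RESMF_S.{u} := by
  intro G _ _ _ c τ
  obtain ⟨hX, -, -, -⟩ := numXF h2 c
  obtain ⟨-, -, -, hk100, hlog, hq0, hb0, hbX, hbn, -⟩ := h2 G c
  have hX0 : (0 : ℝ) < c.X := by linarith
  have hX1 : (1 : ℝ) ≤ c.X := by linarith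
  obtain ⟨hz0, hz1, hz2⟩ := zeta_le c τ hX
  have hX400 : c.X ≤ c.X ^ 400 := by
    calc c.X = c.X ^ 1 := (pow_one _).symm
      _ ≤ c.X ^ 400 := pow_le_pow_right₀ hX1 (by norm_num)
  have hzh : c.ζ τ ≤ 1 / 10 ^ 6 := by
    refine hz1.trans (one_div_le_one_div_of_le (by norm_num) (hX.trans hX400))
  have hb1 : (1 : ℝ) ≤ c.b := (one_le_pow₀ hX1).trans hbX
  have hWd := wm_ds h1 c τ
  have hWi := wm_inv h1 c τ
  have hodd := c.hodd
  obtain ⟨k', hk'⟩ := hodd
  have hu1 : ∀ u : G, ∑ e, c.ζ τ * WM c.B c.C τ 1 e ≤ c.ζ τ := by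
    intro u
    rw [← Finset.mul_sum, hWd.row, mul_one]
  let M : LM G G (3 * c.k + 1) :=
    { jc := 0
      P := fun _ t => c.ζ τ * WM c.B c.C τ 1 t
      ex := fun u t => u * t
      C := fun j => c.cc τ (2 * j + 1)
      kap := fun j _ t => c.cc τ (2 * j + 2) 1 t
      sp := fun j => (τ = true → (2 * j + 1) % 3 ≠ 2)
      H0 := 2 / c.ζ τ
      b := c.b
      pt := 2 * c.ζ τ
      hjc := by omega
      hb := hb1
      hH0 := by
        rw [le_div_iff₀ hz0]
        linarith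
      hP0 := fun u e => mul_nonneg hz0.le (wm_nonneg _ _ _ _ _)
      hP1 := fun u => (hu1 u).trans (by linarith)
      hk0 := fun j u e => (cc_ds h1 c τ _).nn _ _
      hkH := fun j u e => by
        have := cf_le_wm c.B c.C τ (2 * j + 2) 1 e
        calc c.cc τ (2 * j + 2) 1 e ≤ 2 * WM c.B c.C τ 1 e := this
          _ = 2 / c.ζ τ * (c.ζ τ * WM c.B c.C τ 1 e) := by field_simp
      hk1 := fun j u => ((cc_ds h1 c τ _).row 1).le
      hC0 := fun j u v => (cc_ds h1 c τ _).nn _ _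
      hCr := fun j u => ((cc_ds h1 c τ _).row u).le
      hCc := fun j v => ((cc_ds h1 c τ _).col v).le
      hM := fun j v => by
        have h3 : ∀ u : G, ∑ e, c.cc τ (2 * j + 2) 1 e * c.cc τ (2 * (j + 1) + 1) (u * e) v
            = ∑ w, c.cc τ (2 * j + 2) u w * c.cc τ (2 * (j + 1) + 1) w v := fun u =>
          sum_shift _ (cc_inv h1 c τ _) (fun w => c.cc τ (2 * (j + 1) + 1) w v) u
        simp only [h3]
        rw [Finset.sum_comm]
        simp only [← Finset.sum_mul, (cc_ds h1 c τ (2 * j + 2)).col, one_mul,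
          (cc_ds h1 c τ (2 * (j + 1) + 1)).col]
        exact le_refl _
      hpt := fun w => by
        have h3 : ∀ u e : G, c.ζ τ * WM c.B c.C τ 1 e * ind (u = w ∨ u * e = w) ≤
            c.ζ τ * WM c.B c.C τ 1 e * ind (u = w) +
              c.ζ τ * (WM c.B c.C τ 1 e * ind (u * e = w)) := by
          intro u e
          have h4 : ind (u = w ∨ u * e = w) ≤ ind (u = w) + ind (u * e = w) := by
            by_cases h5 : u = w
            · rw [ind_of h5]
              have := ind_le_one (u = w ∨ u * e = w)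
              have := ind_nonneg (u * e = w)
              linarith
            · rw [ind_not h5]
              have : ind (u = w ∨ u * e = w) ≤ ind (u * e = w) :=
                ind_mono (fun h => h.resolve_left h5)
              linarith
          have h5 : 0 ≤ c.ζ τ * WM c.B c.C τ 1 e := mul_nonneg hz0.le (wm_nonneg _ _ _ _ _)
          nlinarith
        calc ∑ u, ∑ e, c.ζ τ * WM c.B c.C τ 1 e * ind (u = w ∨ u * e = w)
            ≤ ∑ u, ∑ e, (c.ζ τ * WM c.B c.C τ 1 e * ind (u = w) +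
              c.ζ τ * (WM c.B c.C τ 1 e * ind (u * e = w))) :=
              Finset.sum_le_sum fun u _ => Finset.sum_le_sum fun e _ => h3 u e
          _ = ∑ u, (c.ζ τ * ind (u = w) + c.ζ τ * WM c.B c.C τ u w) := by
              refine Finset.sum_congr rfl fun u _ => ?_
              rw [Finset.sum_add_distrib, ← Finset.sum_mul, ← Finset.mul_sum, hWd.row, mul_one,
                ← Finset.mul_sum, sum_shift _ hWi (fun v => ind (v = w)) u]
              congr 2
              rw [Finset.sum_eq_single w]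
              · rw [ind_of rfl, mul_one]
              · intro v _ hv
                rw [ind_not hv, mul_zero]
              · intro h; exact absurd (Finset.mem_univ _) h
          _ = 2 * c.ζ τ := by
              rw [Finset.sum_add_distrib, ← Finset.mul_sum, ← Finset.mul_sum, hWd.col]
              rw [sum_ind_eq]
              ring
          _ ≤ 2 * c.ζ τ := le_refl _
      hpt1 := by linarith
      hsp := fun j u v hj => cc_le_b c τ _ hj u v
      hsp0 := by intro _; norm_num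
      hspa := by intro _; omega
      hspc := by intro _; norm_num
      hspc' := by intro _; norm_num
      hsp2 := fun j _ => by
        by_cases h : (2 * j + 1) % 3 = 2
        · right; intro _; omega
        · left; intro _; exact h }
  have hfk : ∀ r i x y, M.fk i r x y = c.K τ (2 * i) (2 * r + 1) x y := by
    intro r
    induction r with
    | zero =>
      intro i x y
      show c.cc τ (2 * i + 1) x y = _
      rw [← k_one h1 c τ (2 * i)]
    | succ r ih =>
      intro i x y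
      rw [fk_succ]
      have h3 : c.K τ (2 * i) (2 * (r + 1) + 1) =
          c.K τ (2 * i) 1 * (c.K τ (2 * i + 1) 1 *
            c.K τ (2 * (i + 1)) (2 * r + 1)) := by
        have e1 : 2 * (r + 1) + 1 = 1 + (1 + (2 * r + 1)) := by ring
        have e2 : 2 * (i + 1) = 2 * i + 1 + 1 := by ring
        rw [e1, k_add h1 c τ (2 * i) 1, k_add h1 c τ (2 * i + 1) 1, e2]
      rw [h3, k_one h1, k_one h1, Matrix.mul_apply]
      refine Finset.sum_congr rfl fun u _ => ?_
      rw [Matrix.mul_apply, Finset.mul_sum,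
        ← Finset.mul_sum _ (fun w => c.cc τ (2 * i + 1 + 1) u w *
          c.K τ (2 * (i + 1)) (2 * r + 1) w y),
        ← sum_shift _ (cc_inv h1 c τ (2 * i + 1 + 1))
          (fun w => c.K τ (2 * (i + 1)) (2 * r + 1) w y) u, Finset.mul_sum]
      refine Finset.sum_congr rfl fun e _ => ?_
      rw [ih]
      show c.cc τ (2 * i + 1) x u * c.cc τ (2 * i + 2) 1 e * _ = _
      rw [mul_assoc]
  have hI : c.Inst τ 2 M c.jr := by
    exact
      { d1 := Or.inr rfl
        len := by ring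
        mid := by unfold Ctx.jr; omega
        C := fun j u v => rfl
        kap := fun j u v => by
          show ∑ e, c.cc τ (2 * j + 2) 1 e * ind (u * e = v) = c.K τ (2 * j + 1) 1 u v
          rw [sum_shift _ (cc_inv h1 c τ _) (fun w => ind (w = v)) u, k_one h1]
          rw [Finset.sum_eq_single v]
          · rw [ind_of rfl, mul_one]
          · intro w _ hw
            rw [ind_not hw, mul_zero]
          · intro h; exact absurd (Finset.mem_univ _) h
        fk := fun i r x y _ => hfk r i x y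
        sp := fun j => Iff.rfl
        b := rfl
        H0 := hz2
        pos := fun j u e hP => by
          have h4 := M.hkH j u e
          have h5 := M.hk0 j u e
          rw [hP, mul_zero] at h4
          exact le_antisymm h4 h5
        lev := fun h => absurd h (by norm_num)
        res := fun _ j u e he => ⟨e, rfl, cc_lt c τ _ e he⟩ }
  refine ⟨M, ?_, ?_⟩
  · exact
      { P := fun u t => rfl
        ex := fun u t => rfl
        kap := fun j u t => rfl
        H0 := rfl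
        pt := rfl
        inst := hI }
  · refine nf_inst h1 h2 h3 c τ 2 M c.jr hI ?_ ?_ ?_
    · unfold Ctx.jr; omega
    · omega
    · show 2 * c.ζ τ ≤ 1 / c.X ^ 5
      have h6 : (0 : ℝ) < c.X ^ 400 := by positivity
      have h7 : 2 * (1 / c.X ^ 400) ≤ 1 / c.X ^ 5 := by
        rw [mul_one_div, div_le_div_iff₀ h6 (by positivity)]
        have h8 : c.X ^ 400 = c.X ^ 395 * c.X ^ 5 := by rw [← pow_add]
        have h9 : (2 : ℝ) ≤ c.X ^ 395 := by
          calc (2 : ℝ) ≤ c.X := by linarith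
            _ = c.X ^ 1 := (pow_one _).symm
            _ ≤ c.X ^ 395 := pow_le_pow_right₀ hX1 (by norm_num)
        rw [h8, one_mul]
        exact mul_le_mul_of_nonneg_right h9 (by positivity)
      linarith

end Pool.Agent.Lib.MP_688fd0_co.TF.H12
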